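import Mathlib

/-!
Project SN (MP_9dd636_co, frozen statement S10416): a class of graphs of quadratic growth with
unbounded stack number.  The graphs are the strong products of two trees.
Conventions: `F` is the fibre tree, `T` the base tree, vertices of the product are pairs
`(u, v)` with `u` in the fibre and `v` in the base.
-/

set_option autoImplicit false

namespace Pool.Agent.W606.SN

/-- equal or adjacent -/
def RA {V : Type} (G : SimpleGraph V) (a b : V) : Prop := a = b ∨ G.Adj a b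

/-- equal or adjacent in the strong product -/
def RP {F T : Type} (GF : SimpleGraph F) (GT : SimpleGraph T) (p q : F × T) : Prop :=
  RA GF p.1 q.1 ∧ RA GT p.2 q.2

theorem RA.refl {V : Type} (G : SimpleGraph V) (a : V) : RA G a a := Or.inl rfl

theorem RA.symm {V : Type} {G : SimpleGraph V} {a b : V} (h : RA G a b) : RA G b a :=
  h.elim (fun h => Or.inl h.symm) (fun h => Or.inr h.symm)

theorem RP.refl {F T : Type} (GF : SimpleGraph F) (GT : SimpleGraph T) (p : F × T) :
    RP GF GT p p := ⟨RA.refl _ _, RA.refl _ _⟩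

theorem RP.symm {F T : Type} {GF : SimpleGraph F} {GT : SimpleGraph T} {p q : F × T}
    (h : RP GF GT p q) : RP GF GT q p := ⟨h.1.symm, h.2.symm⟩

/-- the strong product of two graphs -/
def SP {F T : Type} (GF : SimpleGraph F) (GT : SimpleGraph T) : SimpleGraph (F × T) where
  Adj p q := p ≠ q ∧ RP GF GT p q
  symm := ⟨fun _ _ h => ⟨h.1.symm, h.2.symm⟩⟩
  loopless := ⟨fun _ h => h.1 rfl⟩

/-- every function on the edges of `G` with values in `ZMod 2` is a coboundary -/
def HasPot {V : Type} (G : SimpleGraph V) : Prop :=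
  ∀ w : V → V → ZMod 2, (∀ a b, w a b = w b a) →
    ∃ k : V → ZMod 2, ∀ a b, G.Adj a b → k a + k b = w a b

/-- `f` is constant along the edges inside `A` above the two base vertices `v, v'` -/
def LC {F T : Type} (GF : SimpleGraph F) (GT : SimpleGraph T) (A : F × T → Prop) (v v' : T)
    (f : F × T → ZMod 2) : Prop :=
  ∀ p q : F × T, (p.2 = v ∨ p.2 = v') → (q.2 = v ∨ q.2 = v') → RP GF GT p q → A p → A q → f p = f q

/-- `z` is a (mod 2 homological) section of `A` over the set `W` of base vertices -/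
structure Sec {F T : Type} [Fintype F] (GF : SimpleGraph F) (GT : SimpleGraph T) (W : Set T)
    (A : F × T → Prop) (z : T → F → ZMod 2) : Prop where
  supp : ∀ v ∈ W, ∀ u, ¬ A (u, v) → z v u = 0
  one : ∀ v ∈ W, ∑ u, z v u = 1
  comp : ∀ v ∈ W, ∀ v' ∈ W, GT.Adj v v' → ∀ f : F × T → ZMod 2, LC GF GT A v v' f →
    ∑ u, z v u * f (u, v) = ∑ u, z v' u * f (u, v')

/-- `A` has a section over `W` -/
def HasSec {F T : Type} [Fintype F] (GF : SimpleGraph F) (GT : SimpleGraph T) (W : Set T)
    (A : F × T → Prop) : Prop := ∃ z, Sec GF GT W A z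

/-- `A` is subordinate to `L` over `W`: each edge leaving `A` has exactly one end in `L` -/
def Sub {F T : Type} (GF : SimpleGraph F) (GT : SimpleGraph T) (W : Set T)
    (L A : F × T → Prop) : Prop :=
  ∀ p q : F × T, p.2 ∈ W → q.2 ∈ W → RP GF GT p q → A p → ¬ A q → (L p ↔ ¬ L q)

/-- a rainbow triangle `t = (a, a', b)` at `x`: pairwise adjacent or equal, `a, a'` in `L` and on the
same side of `A`, `b` outside `L` and on the other side of `A`, `pos a < x ≤ pos a'` -/
structure Tri {F T : Type} (GF : SimpleGraph F) (GT : SimpleGraph T) (W : Set T)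
    (L A : F × T → Prop) (pos : F × T → ℕ) (x : ℕ) (t : (F × T) × (F × T) × (F × T)) : Prop where
  w1 : t.1.2 ∈ W
  w2 : t.2.1.2 ∈ W
  w3 : t.2.2.2 ∈ W
  r12 : RP GF GT t.1 t.2.1
  r13 : RP GF GT t.1 t.2.2
  r23 : RP GF GT t.2.1 t.2.2
  L1 : L t.1
  L2 : L t.2.1
  L3 : ¬ L t.2.2
  A12 : A t.1 ↔ A t.2.1
  A13 : A t.1 ↔ ¬ A t.2.2
  lt : pos t.1 < x
  le : x ≤ pos t.2.1

/-- there are `m` disjoint rainbow triangles at `x` above `W` -/
def HasR {F T : Type} (GF : SimpleGraph F) (GT : SimpleGraph T) (m x : ℕ) (W : Set T)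
    (L A : F × T → Prop) (pos : F × T → ℕ) : Prop :=
  ∃ t : Fin m → (F × T) × (F × T) × (F × T), (∀ i, Tri GF GT W L A pos x (t i)) ∧
    ∀ i j, i ≠ j → (t i).1 ≠ (t j).1 ∧ (t i).2.1 ≠ (t j).2.1 ∧ (t i).2.2 ≠ (t j).2.2

/-- the main inductive property of a set `W` of base vertices -/
def PW {F T : Type} [Fintype F] (GF : SimpleGraph F) (GT : SimpleGraph T) (L : F × T → Prop)
    (pos : F × T → ℕ) (m : ℕ) (W : Set T) : Prop :=
  ∀ A : F × T → Prop, Sub GF GT W L A → HasSec GF GT W A → HasSec GF GT W (fun p => ¬ A p) →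
    ∃ x, HasR GF GT m x W L A pos

/-- `W` is connected -/
def Conn {T : Type} (G : SimpleGraph T) (W : Set T) : Prop :=
  ∀ v ∈ W, ∀ v' ∈ W, Relation.ReflTransGen (fun a b => a ∈ W ∧ b ∈ W ∧ G.Adj a b) v v'

/-- `W` contains a ternary branching structure of depth `m` -/
def Deep {T : Type} (G : SimpleGraph T) : ℕ → Set T → Prop
  | 0, W => ∃ v ∈ W, ∃ v' ∈ W, G.Adj v v'
  | m + 1, W => ∃ W' : Fin 3 → Set T, (∀ i, W' i ⊆ W) ∧ (∀ i j, i ≠ j → Disjoint (W' i) (W' j)) ∧
      (∀ i, Conn G (W' i)) ∧ (∀ i, Conn G (W \ W' i)) ∧ ∀ i, Deep G m (W' i)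

open Classical in
/-- the indicator of the edges between the two sides of `A` whose label (the position of the end
in `L`) is below `y` -/
noncomputable def om {F T : Type} (L A : F × T → Prop) (pos : F × T → ℕ) (y : ℕ) (p q : F × T) :
    ZMod 2 :=
  if (A p ↔ ¬ A q) ∧ ((L p ∧ pos p < y) ∨ (L q ∧ pos q < y)) then 1 else 0

/-- `c` is the value on the pair of sections `z, z'` of a potential of `om y` on the line over `v` -/
def IsPar {F T : Type} [Fintype F] (GF : SimpleGraph F) (L A : F × T → Prop) (pos : F × T → ℕ)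
    (y : ℕ) (z z' : T → F → ZMod 2) (v : T) (c : ZMod 2) : Prop :=
  ∃ g : F → ZMod 2, (∀ u u', GF.Adj u u' → g u + g u' = om L A pos y (u, v) (u', v)) ∧
    ∑ u, (z v u + z' v u) * g u = c

/-! ### The parts -/

/-- HEX: homological Hex lemma -/
def S_HEX : Prop :=
  ∀ (F T : Type) [Fintype F] [Fintype T] (GF : SimpleGraph F) (GT : SimpleGraph T),
    GF.Connected → GT.Connected → ∀ A : F × T → Prop,
      HasSec GF GT Set.univ A ∨ HasSec GT GF Set.univ (fun p : T × F => ¬ A (p.2, p.1))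

/-- POT: potentials on the product of two trees -/
def S_POT : Prop :=
  ∀ (F T : Type) (GF : SimpleGraph F) (GT : SimpleGraph T), GF.Connected → HasPot GF → HasPot GT →
    ∀ (W : Set T) (w : F × T → F × T → ZMod 2), (∀ p q, w p q = w q p) →
      (∀ p q r : F × T, p.2 ∈ W → q.2 ∈ W → r.2 ∈ W → RP GF GT p q → RP GF GT q r →
        RP GF GT p r → w p q + w q r = w p r) →
      ∃ χ : F × T → ZMod 2, ∀ p q : F × T, p.2 ∈ W → q.2 ∈ W → RP GF GT p q → χ p + χ q = w p q

/-- OMC: `om y` satisfies the triangle condition above a set without rainbow triangles at `y` -/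
def S_OMC : Prop :=
  ∀ (F T : Type) (GF : SimpleGraph F) (GT : SimpleGraph T) (W : Set T)
    (L A : F × T → Prop) (pos : F × T → ℕ) (y : ℕ), Sub GF GT W L A →
    (∀ t, ¬ Tri GF GT W L A pos y t) →
    ∀ p q r : F × T, p.2 ∈ W → q.2 ∈ W → r.2 ∈ W → RP GF GT p q → RP GF GT q r →
        RP GF GT p r → om L A pos y p q + om L A pos y q r = om L A pos y p r

/-- PAR1: existence of the parity -/
def S_PAR1 : Prop :=
  ∀ (F T : Type) [Fintype F] (GF : SimpleGraph F), HasPot GF →
    ∀ (L A : F × T → Prop) (pos : F × T → ℕ) (y : ℕ) (z z' : T → F → ZMod 2) (v : T),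
      ∃ c, IsPar GF L A pos y z z' v c

/-- PAR2: uniqueness of the parity -/
def S_PAR2 : Prop :=
  ∀ (F T : Type) [Fintype F] (GF : SimpleGraph F), GF.Connected →
    ∀ (L A : F × T → Prop) (pos : F × T → ℕ) (y : ℕ) (z z' : T → F → ZMod 2) (v : T),
      ∑ u, z v u = 1 → ∑ u, z' v u = 1 → ∀ c c', IsPar GF L A pos y z z' v c →
        IsPar GF L A pos y z z' v c' → c = c'

/-- PAR3: the parity does not change along a connected set without rainbow triangles at `y` -/
def S_PAR3 : Prop :=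
  ∀ (F T : Type) [Fintype F] (GF : SimpleGraph F) (GT : SimpleGraph T), GF.Connected →
    HasPot GF → HasPot GT →
    ∀ (W : Set T) (L A : F × T → Prop) (pos : F × T → ℕ) (y : ℕ) (z z' : T → F → ZMod 2),
      Sub GF GT W L A → (∀ t, ¬ Tri GF GT W L A pos y t) → Conn GT W →
      Sec GF GT W A z → Sec GF GT W (fun p => ¬ A p) z' →
      ∀ v ∈ W, ∀ v' ∈ W, ∀ c, IsPar GF L A pos y z z' v c → IsPar GF L A pos y z z' v' c

/-- PAR0: the parity at `0` is `0` -/
def S_PAR0 : Prop :=
  ∀ (F T : Type) [Fintype F] (GF : SimpleGraph F), GF.Connected →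
    ∀ (L A : F × T → Prop) (pos : F × T → ℕ) (z z' : T → F → ZMod 2) (v : T),
      ∑ u, z v u = 1 → ∑ u, z' v u = 1 → ∀ c, IsPar GF L A pos 0 z z' v c → c = 0

/-- PARN: the parity at a large number is `1` -/
def S_PARN : Prop :=
  ∀ (F T : Type) [Fintype F] (GF : SimpleGraph F) (GT : SimpleGraph T), GF.Connected →
    ∀ (W : Set T) (L A : F × T → Prop) (pos : F × T → ℕ) (y : ℕ) (z z' : T → F → ZMod 2),
      Sub GF GT W L A → (∀ p, L p → pos p < y) →
      Sec GF GT W A z → Sec GF GT W (fun p => ¬ A p) z' →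
      ∀ v ∈ W, ∀ c, IsPar GF L A pos y z z' v c → c = 1

/-- INT: if the parity changes between two levels without rainbow triangles, then there is a level
with many rainbow triangles in between -/
def S_INT : Prop :=
  ∀ (F T : Type) [Fintype F] (GF : SimpleGraph F) (GT : SimpleGraph T), GF.Connected →
    HasPot GF → HasPot GT →
    ∀ (W : Set T) (L A : F × T → Prop) (pos : F × T → ℕ) (m : ℕ) (z z' : T → F → ZMod 2),
      Sub GF GT W L A → Conn GT W → Sec GF GT W A z → Sec GF GT W (fun p => ¬ A p) z' →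
      PW GF GT L pos (m + 1) W → ∀ y y' : ℕ, y < y' →
      (∀ t, ¬ Tri GF GT W L A pos y t) → (∀ t, ¬ Tri GF GT W L A pos y' t) →
      ∀ v ∈ W, ∀ c c', IsPar GF L A pos y z z' v c → IsPar GF L A pos y' z z' v c' → c ≠ c' →
      ∃ x, y < x ∧ x < y' ∧ HasR GF GT (m + 1) x W L A pos

/-- BASE: one rainbow triangle -/
def S_BASE : Prop :=
  ∀ (F T : Type) [Fintype F] (GF : SimpleGraph F) (GT : SimpleGraph T), GF.Connected →
    ∀ (L : F × T → Prop) (pos : F × T → ℕ) (W : Set T), Function.Injective pos →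
      Deep GT 0 W → PW GF GT L pos 1 W

/-- STEP: the induction step -/
def S_STEP : Prop :=
  ∀ (F T : Type) [Fintype F] [Fintype T] (GF : SimpleGraph F) (GT : SimpleGraph T), GF.Connected →
    HasPot GF → HasPot GT →
    ∀ (L : F × T → Prop) (pos : F × T → ℕ) (m : ℕ) (W : Set T) (W' : Fin 3 → Set T),
      (∀ i, W' i ⊆ W) → (∀ i j, i ≠ j → Disjoint (W' i) (W' j)) → (∀ i, (W' i).Nonempty) →
      (∀ i, Conn GT (W' i)) → (∀ i, Conn GT (W \ W' i)) →
      (∀ i, PW GF GT L pos (m + 1) (W' i)) → PW GF GT L pos (m + 2) W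

/-- STACK: a stack layout with `k` stacks has no level with `k ^ 3 + 1` disjoint rainbow triangles -/
def S_STACK : Prop :=
  ∀ (F T : Type) (GF : SimpleGraph F) (GT : SimpleGraph T) (k : ℕ) (f : F × T → ℕ)
    (col : F × T → F × T → Fin k), Function.Injective f →
    (∀ a b x y, (SP GF GT).Adj a b → (SP GF GT).Adj x y →
      f a < f x → f x < f b → f b < f y → col a b ≠ col x y) →
    ∀ (s x : ℕ) (W : Set T) (A : F × T → Prop),
      ¬ HasR GF GT (k ^ 3 + 1) x W (fun p => f p < s) A f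

/-- CRIT: the threshold argument -/
def S_CRIT : Prop :=
  S_HEX →
  ∀ (F T : Type) [Fintype F] [Fintype T] (GF : SimpleGraph F) (GT : SimpleGraph T) (M : ℕ)
    (f : F × T → ℕ), Function.Injective f → GF.Connected → GT.Connected →
    (∀ (s : ℕ) (W : Set T), Deep GT M W → PW GF GT (fun p => f p < s) f (M + 1) W) →
    (∀ (s : ℕ) (W : Set F), Deep GF M W →
      PW GT GF (fun p : T × F => f (p.2, p.1) < s) (fun p => f (p.2, p.1)) (M + 1) W) →
    (∀ (s x : ℕ) (W : Set T) (A : F × T → Prop),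
      ¬ HasR GF GT (M + 1) x W (fun p => f p < s) A f) →
    (∀ (s x : ℕ) (W : Set F) (A : T × F → Prop),
      ¬ HasR GT GF (M + 1) x W (fun p => f (p.2, p.1) < s) A (fun p => f (p.2, p.1))) →
    Deep GF (M + 1) Set.univ → Deep GT (M + 1) Set.univ → False

/-! ### The trees -/

/-- the number of vertices of the `m`-th tree -/
def N : ℕ → ℕ
  | 0 => 2
  | m + 1 => 1 + 6 * N m

theorem N_pos (m : ℕ) : 0 < N m := by cases m <;> simp [N]

/-- the vertices of the `m`-th tree: an edge for `m = 0`; for `m + 1` a centre `none` and three arms,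
each a path with `N m` vertices `some (i, inl t)` followed by a copy `some (i, inr w)` of the
`m`-th tree -/
def TV : ℕ → Type
  | 0 => Bool
  | m + 1 => Option (Fin 3 × (Fin (N m) ⊕ TV m))

/-- the root -/
def rt : (m : ℕ) → TV m
  | 0 => false
  | _ + 1 => none

open Classical in
/-- the parent of a vertex (the root is its own parent) -/
noncomputable def par : (m : ℕ) → TV m → TV m
  | 0, _ => false
  | _ + 1, none => none
  | _ + 1, some (i, Sum.inl t) =>
      if h : (t : ℕ) = 0 then none else some (i, Sum.inl ⟨(t : ℕ) - 1, by omega⟩)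
  | m + 1, some (i, Sum.inr w) =>
      if w = rt m then some (i, Sum.inl ⟨N m - 1, Nat.sub_lt (N_pos m) Nat.one_pos⟩)
      else some (i, Sum.inr (par m w))

/-- the `m`-th tree -/
def TG (m : ℕ) : SimpleGraph (TV m) where
  Adj v w := v ≠ w ∧ (par m v = w ∨ par m w = v)
  symm := ⟨fun _ _ h => ⟨h.1.symm, h.2.symm⟩⟩
  loopless := ⟨fun _ h => h.1 rfl⟩

/-- the depth of a vertex -/
def dep : (m : ℕ) → TV m → ℕ
  | 0, b => Bool.toNat b
  | _ + 1, none => 0
  | _ + 1, some (_, Sum.inl t) => (t : ℕ) + 1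
  | m + 1, some (_, Sum.inr w) => N m + 1 + dep m w

/-- finiteness of the vertex sets -/
noncomputable instance instFintypeTV : (m : ℕ) → Fintype (TV m)
  | 0 => inferInstanceAs (Fintype Bool)
  | m + 1 => by
      letI := instFintypeTV m
      exact inferInstanceAs (Fintype (Option (Fin 3 × (Fin (N m) ⊕ TV m))))

/-- DEP: depth facts -/
def S_DEP : Prop :=
  (∀ m, par m (rt m) = rt m) ∧ (∀ m, dep m (rt m) = 0) ∧
    (∀ m (v : TV m), v ≠ rt m → dep m (par m v) + 1 = dep m v)

/-- TREE: the trees are connected, without cycles, and deep -/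
def S_TREE : Prop :=
  ∀ m, (TG m).Connected ∧ HasPot (TG m) ∧ Deep (TG m) m Set.univ

/-- the set of vertices reachable from `v` by at most `r` steps -/
def ball {V : Type} (G : SimpleGraph V) (v : V) : ℕ → Set V
  | 0 => {v}
  | r + 1 => {w | ∃ w' ∈ ball G v r, RA G w' w}

/-- GROW: linear growth of the trees -/
def S_GROW : Prop := ∀ m (v : TV m) (r : ℕ), (ball (TG m) v r).ncard ≤ 13 * r + 1

/-- QUAD: quadratic growth of the products -/
def S_QUAD : Prop :=
  ∀ m (v : TV m × TV m) (r : ℕ), 1 ≤ r →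
    {w | (SP (TG m) (TG m)).edist v w ≤ (r : ℕ∞)}.ncard ≤ 196 * r ^ 2

end Pool.Agent.W606.SN
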