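import Pool.Agent.W606.SN.Step

/-! Project SN: the assembly from the parts. -/

set_option autoImplicit false

namespace Pool.Agent.W606.SN

theorem asm (hhex : S_HEX) (hpar1 : S_PAR1) (hpar3 : S_PAR3) (hpar0 : S_PAR0)
    (hparN : S_PARN) (hint : S_INT) (hbase : S_BASE) (hstack : S_STACK) (hcrit : S_CRIT)
    (htree : S_TREE) (hquad : S_QUAD) :
    ¬ (∀ c : ℕ, ∃ s : ℕ, ∀ (V : Type) [Finite V] (G : SimpleGraph V),
      (∀ v : V, ∀ r : ℕ, 1 ≤ r →
        {w : V | G.edist v w ≤ (r : ℕ∞)}.ncard ≤ c * r ^ 2) →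
      ∃ f : V → ℕ, Function.Injective f ∧
        ∃ col : V → V → Fin s,
          ∀ a b x y : V, G.Adj a b → G.Adj x y →
            f a < f x → f x < f b → f b < f y → col a b ≠ col x y) := by
  intro h
  obtain ⟨k, hk⟩ := h 196
  set m := k ^ 3 + 1 with hm
  obtain ⟨f, hf, col, hcol⟩ := hk (TV m × TV m) (SP (TG m) (TG m)) (fun v r hr => hquad m v r hr)
  obtain ⟨hconn, hpot, hdeep⟩ := htree m
  have hstep : S_STEP := step hpar1 hpar3 hpar0 hparN hint
  have hdPW := deepPW hbase hstep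
  refine hcrit hhex (TV m) (TV m) (TG m) (TG m) (k ^ 3) f hf hconn hconn ?_ ?_ ?_ ?_ hdeep hdeep
  · intro s W hW
    exact hdPW (TV m) (TV m) (TG m) (TG m) hconn hpot hpot _ f hf (k ^ 3) W hW
  · intro s W hW
    refine hdPW (TV m) (TV m) (TG m) (TG m) hconn hpot hpot _ _ ?_ (k ^ 3) W hW
    intro p q hpq
    have := hf hpq
    rw [Prod.mk.injEq] at this
    exact Prod.ext this.2 this.1
  · intro s x W A
    exact hstack (TV m) (TV m) (TG m) (TG m) k f col hf hcol s x W A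
  · intro s x W A
    refine hstack (TV m) (TV m) (TG m) (TG m) k (fun p => f (p.2, p.1))
      (fun p q => col (p.2, p.1) (q.2, q.1)) ?_ ?_ s x W A
    · intro p q hpq
      have := hf hpq
      rw [Prod.mk.injEq] at this
      exact Prod.ext this.2 this.1
    · intro a b x y hab hxy h1 h2 h3
      refine hcol (a.2, a.1) (b.2, b.1) (x.2, x.1) (y.2, y.1) ?_ ?_ h1 h2 h3
      · refine ⟨fun h => hab.1 ?_, hab.2.2, hab.2.1⟩
        rw [Prod.mk.injEq] at h
        exact Prod.ext h.2 h.1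
      · refine ⟨fun h => hxy.1 ?_, hxy.2.2, hxy.2.1⟩
        rw [Prod.mk.injEq] at h
        exact Prod.ext h.2 h.1

end Pool.Agent.W606.SN
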