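import Pool.Agent.W606.SN.Stm

/-! Project SN: the induction step. -/

set_option autoImplicit false

namespace Pool.Agent.W606.SN

variable {F T : Type}

theorem Tri.mono {GF : SimpleGraph F} {GT : SimpleGraph T} {W W1 : Set T} {L A : F × T → Prop}
    {pos : F × T → ℕ} {x : ℕ} {t : (F × T) × (F × T) × (F × T)} (h : Tri GF GT W1 L A pos x t)
    (hW : W1 ⊆ W) : Tri GF GT W L A pos x t :=
  ⟨hW h.w1, hW h.w2, hW h.w3, h.r12, h.r13, h.r23, h.L1, h.L2, h.L3, h.A12, h.A13, h.lt, h.le⟩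

theorem Sub.mono {GF : SimpleGraph F} {GT : SimpleGraph T} {W W1 : Set T} {L A : F × T → Prop}
    (h : Sub GF GT W L A) (hW : W1 ⊆ W) : Sub GF GT W1 L A :=
  fun p q hp hq => h p q (hW hp) (hW hq)

theorem Sec.mono [Fintype F] {GF : SimpleGraph F} {GT : SimpleGraph T} {W W1 : Set T}
    {A : F × T → Prop} {z : T → F → ZMod 2}
    (h : Sec GF GT W A z) (hW : W1 ⊆ W) : Sec GF GT W1 A z :=
  ⟨fun v hv => h.supp v (hW hv), fun v hv => h.one v (hW hv),
    fun v hv v' hv' => h.comp v (hW hv) v' (hW hv')⟩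

theorem Deep.nonempty {G : SimpleGraph T} : ∀ (m : ℕ) (W : Set T), Deep G m W → W.Nonempty
  | 0, _, h => by
      obtain ⟨v, hv, _⟩ := h
      exact ⟨v, hv⟩
  | m + 1, _, h => by
      obtain ⟨W', h1, _, _, _, h5⟩ := h
      obtain ⟨v, hv⟩ := Deep.nonempty m _ (h5 0)
      exact ⟨v, h1 0 hv⟩

/-- adding one triangle -/
theorem comb {GF : SimpleGraph F} {GT : SimpleGraph T} {W W1 : Set T} {L A : F × T → Prop}
    {pos : F × T → ℕ} {x m : ℕ} (hW : W1 ⊆ W) (h : HasR GF GT m x W1 L A pos)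
    (t : (F × T) × (F × T) × (F × T)) (ht : Tri GF GT (W \ W1) L A pos x t) :
    HasR GF GT (m + 1) x W L A pos := by
  obtain ⟨s, hs, hd⟩ := h
  have key : ∀ i, t.1 ≠ (s i).1 ∧ t.2.1 ≠ (s i).2.1 ∧ t.2.2 ≠ (s i).2.2 := by
    intro i
    refine ⟨?_, ?_, ?_⟩
    · intro h; exact ht.w1.2 (h ▸ (hs i).w1)
    · intro h; exact ht.w2.2 (h ▸ (hs i).w2)
    · intro h; exact ht.w3.2 (h ▸ (hs i).w3)
  refine ⟨Fin.cons t s, ?_, ?_⟩
  · intro i
    refine Fin.cases ?_ (fun i => ?_) i
    · exact ht.mono Set.diff_subset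
    · exact (hs i).mono hW
  · intro i j
    refine Fin.cases ?_ (fun i => ?_) i
    · refine Fin.cases ?_ (fun j => ?_) j
      · intro h; exact absurd rfl h
      · intro _
        simpa using key j
    · refine Fin.cases ?_ (fun j => ?_) j
      · intro _
        have := key i
        simp only [Fin.cons_succ, Fin.cons_zero]
        exact ⟨this.1.symm, this.2.1.symm, this.2.2.symm⟩
      · intro h
        simp only [Fin.cons_succ]
        exact hd i j (fun e => h (by rw [e]))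

theorem step (hpar1 : S_PAR1) (hpar3 : S_PAR3) (hpar0 : S_PAR0)
    (hparN : S_PARN) (hint : S_INT) : S_STEP := by
  intro F T _ _ GF GT hGF hpF hpT L pos m W W' hsub hdis hne hconn hconn' hPW A hSub hA hA'
  obtain ⟨z, hz⟩ := hA
  obtain ⟨z', hz'⟩ := hA'
  by_contra hcon
  have hno : ∀ x, ¬ HasR GF GT (m + 2) x W L A pos := fun x hx => hcon ⟨x, hx⟩
  choose v hv using hne
  set H : Fin 3 → ℕ → Prop := fun i x => HasR GF GT (m + 1) x (W' i) L A pos with hH
  set good : Fin 3 → ℕ → Prop := fun i x => ∀ t, ¬ Tri GF GT (W' i) L A pos x t with hgood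
  set p : Fin 3 → ℕ → ZMod 2 → Prop := fun i x c => IsPar GF L A pos x z z' (v i) c with hp
  have hin : ∀ i j, i ≠ j → W' i ⊆ W \ W' j := by
    intro i j hij a ha
    exact ⟨hsub i ha, fun h => Set.disjoint_left.mp (hdis i j hij) ha h⟩
  have F1 : ∀ j x, H j x → ∀ t, ¬ Tri GF GT (W \ W' j) L A pos x t := by
    intro j x hj t ht
    exact hno x (comb (hsub j) hj t ht)
  have F3 : ∀ i j x, i ≠ j → H j x → good i x := by
    intro i j x hij hj t ht
    exact F1 j x hj t (ht.mono (hin i j hij))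
  have F4 : ∀ i k j x c, i ≠ j → k ≠ j → H j x → p i x c → p k x c := by
    intro i k j x c hij hkj hj hc
    exact hpar3 F T GF GT hGF hpF hpT (W \ W' j) L A pos x z z' (hSub.mono Set.diff_subset)
      (F1 j x hj) (hconn' j) (hz.mono Set.diff_subset) (hz'.mono Set.diff_subset)
      (v i) (hin i j hij (hv i)) (v k) (hin k j hkj (hv k)) c hc
  have F5 : ∀ i y y' c c', y < y' → good i y → good i y' → p i y c → p i y' c' → c ≠ c' →
      ∃ x, y < x ∧ x < y' ∧ H i x := by
    intro i y y' c c' hyy hg hg' hc hc' hcc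
    exact hint F T GF GT hGF hpF hpT (W' i) L A pos m z z' (hSub.mono (hsub i)) (hconn i)
      (hz.mono (hsub i)) (hz'.mono (hsub i)) (hPW i) y y' hyy hg hg' (v i) (hv i) c c' hc hc' hcc
  have F6 : ∀ i c, p i 0 c → c = 0 := by
    intro i c hc
    exact hpar0 F T GF hGF L A pos z z' (v i) (hz.one _ (hsub i (hv i)))
      (hz'.one _ (hsub i (hv i))) c hc
  obtain ⟨Nn, hNn⟩ : ∃ Nn, ∀ q, L q → pos q < Nn := by
    refine ⟨(Finset.univ.sup pos) + 1, fun q _ => Nat.lt_succ_of_le ?_⟩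
    exact Finset.le_sup (f := pos) (Finset.mem_univ q)
  have F7 : ∀ i c, p i Nn c → c = 1 := by
    intro i c hc
    exact hparN F T GF GT hGF W L A pos Nn z z' hSub hNn hz hz' (v i) (hsub i (hv i)) c hc
  have F8 : ∀ i, good i 0 := fun i t ht => absurd ht.lt (Nat.not_lt_zero _)
  have F9 : ∀ i, good i Nn := by
    intro i t ht
    exact absurd ht.le (Nat.not_le_of_lt (hNn _ ht.L2))
  have F10 : ∀ j x, H j x → 0 < x ∧ x < Nn := by
    intro j x ⟨t, ht, _⟩
    have h0 := ht 0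
    exact ⟨Nat.lt_of_le_of_lt (Nat.zero_le _) h0.lt, Nat.lt_of_le_of_lt h0.le (hNn _ h0.L2)⟩
  have ex : ∀ i x, ∃ c, p i x c := fun i x => hpar1 F T GF hpF L A pos x z z' (v i)
  -- the core
  have core : ∀ x, 0 < x → (∀ y, y < x → ∀ j', H j' y → ∀ i, i ≠ j' → ∀ c, p i y c → c = 0) →
      ∀ j, (∀ i, i ≠ j → good i x) → ∀ c, (∀ i, i ≠ j → p i x c) → c ≠ 0 → False := by
    intro x hx IH j hg c hc hc0
    classical
    by_cases hS : ∃ y, y < x ∧ ∃ j', H j' y
    · -- the largest event below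
      obtain ⟨y, ⟨hyx, j', hj'⟩, hmax⟩ : ∃ y, (y < x ∧ ∃ j', H j' y) ∧
          ∀ y', (y' < x ∧ ∃ j', H j' y') → y' ≤ y := by
        let S : Finset ℕ := (Finset.range x).filter (fun y => ∃ j', H j' y)
        have hne : S.Nonempty := by
          obtain ⟨y, hy, hj⟩ := hS
          exact ⟨y, Finset.mem_filter.mpr ⟨Finset.mem_range.mpr hy, hj⟩⟩
        refine ⟨S.max' hne, ?_, ?_⟩
        · have := Finset.mem_filter.mp (S.max'_mem hne)
          exact ⟨Finset.mem_range.mp this.1, this.2⟩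
        · intro y' hy'
          exact S.le_max' y' (Finset.mem_filter.mpr ⟨Finset.mem_range.mpr hy'.1, hy'.2⟩)
      obtain ⟨i, hij, hij'⟩ : ∃ i : Fin 3, i ≠ j ∧ i ≠ j' := by
        clear * -
        revert j j'; decide
      obtain ⟨c', hc'⟩ := ex i y
      have hc'0 : c' = 0 := IH y hyx j' hj' i hij' c' hc'
      obtain ⟨x', h1, h2, h3⟩ := F5 i y x c' c hyx (F3 i j' y hij' hj') (hg i hij) hc' (hc i hij)
        (by rw [hc'0]; exact hc0.symm)
      exact absurd (hmax x' ⟨h2, i, h3⟩) (Nat.not_le_of_lt h1)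
    · obtain ⟨i, hij⟩ : ∃ i : Fin 3, i ≠ j := by
        clear * -
        revert j; decide
      obtain ⟨c', hc'⟩ := ex i 0
      have hc'0 : c' = 0 := F6 i c' hc'
      obtain ⟨x', h1, h2, h3⟩ := F5 i 0 x c' c hx (F8 i) (hg i hij) hc' (hc i hij)
        (by rw [hc'0]; exact hc0.symm)
      exact hS ⟨x', h2, i, h3⟩
  have Q : ∀ x, ∀ j, H j x → ∀ i, i ≠ j → ∀ c, p i x c → c = 0 := by
    intro x
    induction x using Nat.strong_induction_on with
    | _ x IH =>
      intro j hj i hij c hc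
      by_contra hc0
      exact core x (F10 j x hj).1 IH j (fun k hk => F3 k j x hk hj) c
        (fun k hk => F4 i k j x c hij hk hj hc) hc0
  have hN0 : 0 < Nn := by
    rcases Nat.eq_zero_or_pos Nn with h | h
    · exfalso
      obtain ⟨c, hc⟩ := ex 0 0
      have h0 := F6 0 c hc
      have h1 := F7 0 c (h ▸ hc)
      rw [h0] at h1
      exact absurd h1 (by decide)
    · exact h
  refine core Nn hN0 (fun y _ => Q y) 0 (fun i _ => F9 i) 1 (fun i _ => ?_) one_ne_zero
  obtain ⟨c, hc⟩ := ex i Nn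
  have := F7 i c hc
  rw [← this]; exact hc

/-- all depths -/
theorem deepPW (hbase : S_BASE) (hstep : S_STEP) :
    ∀ (F T : Type) [Fintype F] [Fintype T] (GF : SimpleGraph F) (GT : SimpleGraph T), GF.Connected →
    HasPot GF → HasPot GT →
    ∀ (L : F × T → Prop) (pos : F × T → ℕ), Function.Injective pos →
      ∀ (m : ℕ) (W : Set T), Deep GT m W → PW GF GT L pos (m + 1) W := by
  intro F T _ _ GF GT hGF hpF hpT L pos hpos m
  induction m with
  | zero => intro W hW; exact hbase F T GF GT hGF L pos W hpos hW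
  | succ m ih =>
    intro W hW
    obtain ⟨W', h1, h2, h3, h4, h5⟩ := hW
    exact hstep F T GF GT hGF hpF hpT L pos m W W' h1 h2 (fun i => Deep.nonempty m _ (h5 i)) h3 h4
      (fun i => ih _ (h5 i))

end Pool.Agent.W606.SN
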